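import Mathlib

/-!
# Regular rooted graphs in which short paths are unique
-/

set_option autoImplicit false
open Classical

namespace Pool.Agent.H50.Inh

/-- `R` is a graph with root `none`; the other vertices have degree `k`, and two paths of length at
most `n` with the same ends have the same vertices. -/
structure Pocket {P : Type} (R : SimpleGraph (Option P)) (k n : ℕ) : Prop where
  root : ∃ q, R.Adj none (some q)
  deg : ∀ p : P, {q | R.Adj (some p) q}.ncard = k
  uniq : ∀ (a b : Option P) (p q : R.Walk a b), p.IsPath → q.IsPath → p.length ≤ n →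
    q.length ≤ n → p.support = q.support

section Cayley

variable {k r : ℕ}

/-- reduced words of length at most `r` -/
def Words (k r : ℕ) : Type := {L : List (Fin k) // L.IsChain (· ≠ ·) ∧ L.length ≤ r}

instance : Finite (Words k r) := by
  have h : {L : List (Fin k) | L.IsChain (· ≠ ·) ∧ L.length ≤ r}.Finite :=
    (List.finite_length_le (Fin k) r).subset fun L hL => hL.2
  exact h.to_subtype

/-- multiplication of a word by a letter -/
def step (r : ℕ) (c : Fin k) (L : List (Fin k)) : List (Fin k) :=
  if L.head? = some c then L.tail else if L.length < r then c :: L else L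

theorem step_cons (c : Fin k) (L : List (Fin k)) : step r c (c :: L) = L := by
  simp [step]

theorem step_new {c : Fin k} {L : List (Fin k)} (h : L.head? ≠ some c) (hL : L.length < r) :
    step r c L = c :: L := by
  simp [step, h, hL]

theorem head_ne {c : Fin k} {L : List (Fin k)} (h : (c :: L).IsChain (· ≠ ·)) :
    L.head? ≠ some c := by
  cases L with
  | nil => simp
  | cons d L =>
    rw [List.isChain_cons_cons] at h
    intro h2
    apply h.1
    simpa using h2.symm

theorem chain_cons {c : Fin k} {L : List (Fin k)} (h : L.head? ≠ some c)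
    (hL : L.IsChain (· ≠ ·)) : (c :: L).IsChain (· ≠ ·) := by
  cases L with
  | nil => simp
  | cons d L =>
    rw [List.isChain_cons_cons]
    refine ⟨fun h2 => h ?_, hL⟩
    simp [h2]

theorem step_mem (c : Fin k) {L : List (Fin k)} (hL : L.IsChain (· ≠ ·) ∧ L.length ≤ r) :
    (step r c L).IsChain (· ≠ ·) ∧ (step r c L).length ≤ r := by
  unfold step
  split_ifs with h1 h2
  · refine ⟨hL.1.tail, ?_⟩
    rw [List.length_tail]
    omega
  · refine ⟨chain_cons h1 hL.1, ?_⟩
    rw [List.length_cons]
    omega
  · exact hL

theorem step_step (c : Fin k) {L : List (Fin k)} (hL : L.IsChain (· ≠ ·) ∧ L.length ≤ r) :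
    step r c (step r c L) = L := by
  by_cases h1 : L.head? = some c
  · obtain ⟨L', rfl⟩ : ∃ L', L = c :: L' := by
      cases L with
      | nil => simp at h1
      | cons d L =>
        simp at h1
        exact ⟨L, by rw [h1]⟩
    rw [step_cons]
    refine step_new (head_ne hL.1) ?_
    have := hL.2
    rw [List.length_cons] at this
    omega
  · by_cases h2 : L.length < r
    · rw [step_new h1 h2, step_cons]
    · have h3 : step r c L = L := by simp [step, h1, h2]
      rw [h3, h3]

/-- the permutation of the reduced words given by a letter -/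
def gen (r : ℕ) (c : Fin k) : Equiv.Perm (Words k r) :=
  Function.Involutive.toPerm (fun L => (⟨step r c L.1, step_mem c L.2⟩ : Words k r)) fun L =>
    Subtype.ext (step_step c L.2)

theorem gen_apply (c : Fin k) (L : Words k r) : (gen r c L).1 = step r c L.1 := rfl

theorem gen_mul (c : Fin k) : gen r c * gen r c = 1 := by
  ext1 L
  exact Subtype.ext (step_step c L.2)

/-- the empty word -/
def emp : Words k r := ⟨[], by simp, by simp⟩

theorem prod_emp (L : List (Fin k)) (hL : L.IsChain (· ≠ ·)) (hr : L.length ≤ r) :
    ((L.map (gen r)).prod emp).1 = L := by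
  induction L with
  | nil => rfl
  | cons c L ih =>
    rw [List.length_cons] at hr
    rw [List.map_cons, List.prod_cons, Equiv.Perm.mul_apply, gen_apply,
      ih hL.tail (by omega), step_new (head_ne hL) (by omega)]

/-- the Cayley graph -/
def cay (k r : ℕ) (hr : 0 < r) : SimpleGraph (Equiv.Perm (Words k r)) where
  Adj x y := ∃ c : Fin k, y = x * gen r c
  symm := by
    constructor
    rintro x y ⟨c, rfl⟩
    exact ⟨c, by rw [mul_assoc, gen_mul, mul_one]⟩
  loopless := by
    constructor
    rintro x ⟨c, h⟩
    have h1 : gen r c = 1 := by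
      have : x * 1 = x * gen r c := by rw [mul_one]; exact h
      exact (mul_left_cancel this).symm
    have h2 := prod_emp (r := r) [c] (by simp) (by simp; omega)
    rw [List.map_cons, List.map_nil, List.prod_cons, List.prod_nil, mul_one, h1] at h2
    have h3 : (emp : Words k r).1 = [c] := h2
    simp [emp] at h3

/-- the vertices of a walk given by a word -/
def trail (x : Equiv.Perm (Words k r)) : List (Fin k) → List (Equiv.Perm (Words k r))
  | [] => [x]
  | c :: L => x :: trail (x * gen r c) L

theorem word {hr : 0 < r} {x y : Equiv.Perm (Words k r)} (w : (cay k r hr).Walk x y) :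
    ∃ L : List (Fin k), L.length = w.length ∧ y = x * (L.map (gen r)).prod ∧
      w.support = trail x L ∧ (w.IsPath → L.IsChain (· ≠ ·)) := by
  induction w with
  | nil => exact ⟨[], by simp, by simp, by simp [trail], by simp⟩
  | @cons x z y h p ih =>
    obtain ⟨c, hc⟩ := h
    subst hc
    obtain ⟨L, h1, h2, h3, h4⟩ := ih
    refine ⟨c :: L, ?_, ?_, ?_, ?_⟩
    · rw [List.length_cons, h1]
      rfl
    · rw [List.map_cons, List.prod_cons, ← mul_assoc]
      exact h2
    · show x :: p.support = _
      rw [h3]
      rfl
    · intro hp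
      replace hp := (SimpleGraph.Walk.cons_isPath_iff _ _).1 hp
      refine chain_cons ?_ (h4 hp.1)
      intro hh
      apply hp.2
      rw [h3]
      cases L with
      | nil => simp at hh
      | cons d L =>
        simp at hh
        subst hh
        rw [trail, mul_assoc, gen_mul, mul_one]
        right
        cases L <;> exact List.Mem.head _

theorem cay_uniq {hr : 0 < r} {x y : Equiv.Perm (Words k r)} (p q : (cay k r hr).Walk x y)
    (hp : p.IsPath) (hq : q.IsPath) (hpr : p.length ≤ r) (hqr : q.length ≤ r) :
    p.support = q.support := by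
  obtain ⟨L, h1, h2, h3, h4⟩ := word p
  obtain ⟨M, g1, g2, g3, g4⟩ := word q
  have h5 : (L.map (gen r)).prod = (M.map (gen r)).prod := by
    apply mul_left_cancel (a := x)
    rw [← h2, ← g2]
  have h6 : L = M := by
    rw [← prod_emp (r := r) L (h4 hp) (by omega), ← prod_emp (r := r) M (g4 hq) (by omega), h5]
  rw [h3, g3, h6]

theorem gen_inj (hr : 0 < r) : Function.Injective (gen r : Fin k → _) := by
  intro c d h
  have h2 := prod_emp (r := r) [c] (by simp) (by simp; omega)
  have h3 := prod_emp (r := r) [d] (by simp) (by simp; omega)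
  simp only [List.map_cons, List.map_nil, List.prod_cons, List.prod_nil, mul_one] at h2 h3
  rw [h, h3] at h2
  simpa using h2.symm

theorem cay_deg {hr : 0 < r} (x : Equiv.Perm (Words k r)) :
    {y | (cay k r hr).Adj x y}.ncard = k := by
  have h1 : {y | (cay k r hr).Adj x y} = (fun c => x * gen r c) '' (Set.univ : Set (Fin k)) := by
    ext y
    constructor
    · rintro ⟨c, rfl⟩
      exact ⟨c, trivial, rfl⟩
    · rintro ⟨c, -, rfl⟩
      exact ⟨c, rfl⟩
  rw [h1, Set.ncard_image_of_injective _ (fun c d h => gen_inj hr (mul_left_cancel h)),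
    Set.ncard_univ, Nat.card_eq_fintype_card, Fintype.card_fin]

theorem exists_pocket (k n : ℕ) (hk : 0 < k) :
    ∃ (P : Type) (_ : Finite P) (R : SimpleGraph (Option P)), Pocket R k n := by
  have hr : 0 < n + 1 := by omega
  let X := Equiv.Perm (Words k (n + 1))
  let f : Option {x : X // x ≠ 1} → X := fun o => o.elim 1 Subtype.val
  have hf : Function.Injective f := by
    rintro (_ | a) (_ | b) h
    · rfl
    · exact absurd h.symm b.2
    · exact absurd h a.2
    · exact congrArg some (Subtype.ext h)
  have hf2 : ∀ x, ∃ o, f o = x := by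
    intro x
    by_cases hx : x = 1
    · exact ⟨none, hx.symm⟩
    · exact ⟨some ⟨x, hx⟩, rfl⟩
  let R : SimpleGraph (Option {x : X // x ≠ 1}) := (cay k (n + 1) hr).comap f
  let F : R →g cay k (n + 1) hr := ⟨f, fun h => h⟩
  refine ⟨{x : X // x ≠ 1}, inferInstance, R, ?_, ?_, ?_⟩
  · have h1 : gen (n + 1) (⟨0, hk⟩ : Fin k) ≠ 1 := by
      intro h
      have h2 : (cay k (n + 1) hr).Adj 1 1 := ⟨⟨0, hk⟩, by rw [h, mul_one]⟩
      exact (cay k (n + 1) hr).loopless.irrefl _ h2
    refine ⟨⟨gen (n + 1) ⟨0, hk⟩, h1⟩, ⟨0, hk⟩, ?_⟩
    show gen (n + 1) (⟨0, hk⟩ : Fin k) = 1 * _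
    rw [one_mul]
  · intro p
    refine (Set.ncard_image_of_injective _ hf).symm.trans
      (Eq.trans ?_ (cay_deg (hr := hr) (f (some p))))
    congr 1
    ext y
    constructor
    · rintro ⟨q, hq, rfl⟩
      exact hq
    · intro hy
      obtain ⟨q, rfl⟩ := hf2 y
      exact ⟨q, hy, rfl⟩
  · intro a b p q hp hq hpn hqn
    have h1 := cay_uniq (p.map F) (q.map F) (hp.map hf) (hq.map hf)
      (by rw [SimpleGraph.Walk.length_map]; omega) (by rw [SimpleGraph.Walk.length_map]; omega)
    rw [SimpleGraph.Walk.support_map, SimpleGraph.Walk.support_map] at h1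
    exact List.map_injective_iff.2 hf h1

end Cayley

end Pool.Agent.H50.Inh
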