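import Mathlib

/-!
# Inherence of two-rooted graphs: definitions and a criterion for graphs which are not inherent
-/

set_option autoImplicit false
open Classical Finset

namespace Pool.Agent.H50.Inh

variable {W V : Type}

/-- `(s', t')` gives an extension of the copy `φ` of `(H, s, t)` in `G`. -/
def IsExtension {H : SimpleGraph W} {G : SimpleGraph V} (φ : H ↪g G) (s t : W)
    (s' t' : V) : Prop :=
  s' ≠ t' ∧ s' ∉ Set.range φ ∧ t' ∉ Set.range φ ∧ ¬ G.Adj s' t' ∧
    (∀ a, G.Adj s' (φ a) ↔ a = s) ∧ (∀ a, G.Adj t' (φ a) ↔ a = t)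

/-- The extension is closable: there is an induced path from `s'` to `t'` whose other vertices
lie outside the closed neighbourhood of the copy. -/
def IsClosable {H : SimpleGraph W} {G : SimpleGraph V} (φ : H ↪g G) (s' t' : V) : Prop :=
  ∃ p : G.Walk s' t', p.IsPath ∧
    (∀ i j, i ≤ p.length → j ≤ p.length → G.Adj (p.getVert i) (p.getVert j) →
      i + 1 = j ∨ j + 1 = i) ∧
    ∀ v ∈ p.support, v ≠ s' → v ≠ t' → ∀ a, v ≠ φ a ∧ ¬ G.Adj v (φ a)

/-- The copy `φ` of `(H, s, t)` is avoidable in `G`. -/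
def IsAvoidable {H : SimpleGraph W} {G : SimpleGraph V} (φ : H ↪g G) (s t : W) : Prop :=
  ∀ s' t', IsExtension φ s t s' t' → IsClosable φ s' t'

/-- `(H, s, t)` is inherent: every finite graph containing a copy of `H` contains an avoidable
copy of `(H, s, t)`. -/
def Inherent (H : SimpleGraph W) (s t : W) : Prop :=
  ∀ (V : Type) [Fintype V] (G : SimpleGraph V), Nonempty (H ↪g G) →
    ∃ φ : H ↪g G, IsAvoidable φ s t

/-! ### closability -/

/-- If all neighbours of `s'` are in the closed neighbourhood of the copy, the extension is not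
closable. -/
theorem not_closable {H : SimpleGraph W} {G : SimpleGraph V} (φ : H ↪g G) {s t : W} {s' t' : V}
    (he : IsExtension φ s t s' t')
    (hd : ∀ z, G.Adj s' z → z ∉ Set.range φ → ∃ a, G.Adj z (φ a)) : ¬ IsClosable φ s' t' := by
  rintro ⟨p, -, -, hp⟩
  obtain ⟨hne, -, -, hna, -⟩ := he
  cases p with
  | nil => exact hne rfl
  | @cons _ z _ h q =>
    have hz1 : z ≠ s' := fun h' => by subst h'; exact G.loopless.irrefl _ h
    have hz2 : z ≠ t' := fun h' => by subst h'; exact hna h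
    have hz := hp z (by simp) hz1 hz2
    obtain ⟨a, ha⟩ := hd z h (by rintro ⟨a, rfl⟩; exact (hz a).1 rfl)
    exact (hz a).2 ha

theorem closable_symm {H : SimpleGraph W} {G : SimpleGraph V} {φ : H ↪g G} {s' t' : V}
    (h : IsClosable φ s' t') : IsClosable φ t' s' := by
  obtain ⟨p, h1, h2, h3⟩ := h
  refine ⟨p.reverse, h1.reverse, ?_, ?_⟩
  · intro i j hi hj hadj
    rw [SimpleGraph.Walk.length_reverse] at hi hj
    rw [SimpleGraph.Walk.getVert_reverse, SimpleGraph.Walk.getVert_reverse] at hadj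
    have := h2 _ _ (Nat.sub_le _ _) (Nat.sub_le _ _) hadj
    omega
  · intro v hv h4 h5 a
    rw [SimpleGraph.Walk.support_reverse, List.mem_reverse] at hv
    exact h3 v hv h5 h4 a

theorem extension_symm {H : SimpleGraph W} {G : SimpleGraph V} {φ : H ↪g G} {s t : W}
    {s' t' : V} (h : IsExtension φ s t s' t') : IsExtension φ t s t' s' := by
  obtain ⟨h1, h2, h3, h4, h5, h6⟩ := h
  exact ⟨h1.symm, h3, h2, fun h => h4 h.symm, h6, h5⟩

theorem Inherent.symm {H : SimpleGraph W} {s t : W} (h : Inherent H s t) : Inherent H t s := by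
  intro V _ G hG
  obtain ⟨φ, hφ⟩ := h V G hG
  exact ⟨φ, fun s' t' he => closable_symm (hφ t' s' (extension_symm he))⟩

/-- criterion for graphs which are not inherent -/
theorem not_inherent {H : SimpleGraph W} {s t : W} (V : Type) [Fintype V] (G : SimpleGraph V)
    (φ₀ : H ↪g G)
    (h : ∀ φ : H ↪g G, ∃ s' t', IsExtension φ s t s' t' ∧
      ∀ z, G.Adj s' z → z ∉ Set.range φ → ∃ a, G.Adj z (φ a)) : ¬ Inherent H s t := by
  intro hi
  obtain ⟨φ, hφ⟩ := hi V G ⟨φ₀⟩
  obtain ⟨s', t', he, hd⟩ := h φ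
  exact not_closable φ he hd (hφ s' t' he)

end Pool.Agent.H50.Inh
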